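import Pool.Agent.Helper43.LS.Defs

/-!
# Project `L(5,n)`, module LB-9: `L(m,n)` and `L(n,m)` are isomorphic by conjugation
-/

set_option autoImplicit false

namespace Pool.LS

open Finset

/-- The conjugate of a partition with at most `m` parts, all at most `n`. -/
def conjP (m n : ℕ) (a : Fin m → ℕ) : Fin n → ℕ :=
  fun j => (univ.filter (fun i : Fin m => n - j.val ≤ a i)).card

theorem conjP_le (m n : ℕ) (a : Fin m → ℕ) (j : Fin n) : conjP m n a j ≤ m := by
  unfold conjP
  calc (univ.filter (fun i : Fin m => n - j.val ≤ a i)).card ≤ (univ : Finset (Fin m)).card :=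
        card_le_card (filter_subset _ _)
    _ = m := by simp

theorem conjP_monotone (m n : ℕ) (a : Fin m → ℕ) : Monotone (conjP m n a) := by
  intro j k hjk
  unfold conjP
  apply card_le_card
  intro i hi
  simp only [mem_filter, mem_univ, true_and] at hi ⊢
  have : j.val ≤ k.val := hjk
  omega

theorem conjP_mono (m n : ℕ) {a b : Fin m → ℕ} (h : a ≤ b) : conjP m n a ≤ conjP m n b := by
  intro j
  unfold conjP
  apply card_le_card
  intro i hi
  simp only [mem_filter, mem_univ, true_and] at hi ⊢
  have : a i ≤ b i := h i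
  omega

theorem card_ge (n c : ℕ) (hc : c ≤ n) :
    (univ.filter (fun j : Fin n => n - j.val ≤ c)).card = c := by
  rcases Nat.eq_zero_or_pos c with h0 | hpos
  · subst h0
    rw [card_eq_zero, filter_eq_empty_iff]
    intro j _
    have := j.isLt
    omega
  · have hlt : n - c < n := by omega
    have h1 : univ.filter (fun j : Fin n => n - j.val ≤ c) = Ici (⟨n - c, hlt⟩ : Fin n) := by
      ext j
      simp only [mem_filter, mem_univ, true_and, mem_Ici, Fin.le_def]
      omega
    rw [h1, Fin.card_Ici]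
    simp only
    omega

theorem conjP_sum (m n : ℕ) (a : Fin m → ℕ) (ha : ∀ i, a i ≤ n) :
    ∑ j, conjP m n a j = ∑ i, a i := by
  unfold conjP
  have h1 : ∀ j : Fin n, (univ.filter (fun i : Fin m => n - j.val ≤ a i)).card
      = ∑ i : Fin m, if n - j.val ≤ a i then 1 else 0 := by
    intro j
    rw [card_filter]
  simp_rw [h1]
  rw [sum_comm]
  apply sum_congr rfl
  intro i _
  rw [← card_filter]
  exact card_ge n (a i) (ha i)

theorem le_conjP_iff (m n : ℕ) (a : Fin m → ℕ) (hm : Monotone a) (i : Fin m) (j : Fin n) :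
    m - i.val ≤ conjP m n a j ↔ n - j.val ≤ a i := by
  unfold conjP
  constructor
  · intro h
    by_contra hc
    have hsub : univ.filter (fun i' : Fin m => n - j.val ≤ a i') ⊆ Ioi i := by
      intro k hk
      simp only [mem_filter, mem_univ, true_and] at hk
      rw [mem_Ioi]
      by_contra hk2
      have hki : k ≤ i := not_lt.mp hk2
      exact hc (hk.trans (hm hki))
    have h2 := card_le_card hsub
    rw [Fin.card_Ioi] at h2
    have := i.isLt
    omega
  · intro h
    have hsub : Ici i ⊆ univ.filter (fun i' : Fin m => n - j.val ≤ a i') := by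
      intro k hk
      rw [mem_Ici] at hk
      simp only [mem_filter, mem_univ, true_and]
      exact h.trans (hm hk)
    have h2 := card_le_card hsub
    rw [Fin.card_Ici] at h2
    exact h2

theorem conjP_conjP (m n : ℕ) (a : Fin m → ℕ) (hm : Monotone a) (ha : ∀ i, a i ≤ n) :
    conjP n m (conjP m n a) = a := by
  funext i
  have h1 : conjP n m (conjP m n a) i
      = (univ.filter (fun j : Fin n => m - i.val ≤ conjP m n a j)).card := rfl
  rw [h1]
  have h2 : univ.filter (fun j : Fin n => m - i.val ≤ conjP m n a j)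
      = univ.filter (fun j : Fin n => n - j.val ≤ a i) := by
    ext j
    simp only [mem_filter, mem_univ, true_and]
    exact le_conjP_iff m n a hm i j
  rw [h2]
  exact card_ge n (a i) (ha i)

/-- Conjugation of partitions. -/
theorem sco_symm (m n : ℕ) (h : SCO m n) : SCO n m := by
  obtain ⟨P, hP, hex⟩ := h
  refine ⟨(fun C => conjP m n '' C) '' P, ?_, ?_⟩
  · rintro C' ⟨C, hC, rfl⟩
    obtain ⟨hsub, hchain, hinj, j, hj⟩ := hP C hC
    refine ⟨?_, ?_, ?_, j, ?_⟩
    · rintro a' ⟨a, _, rfl⟩
      exact ⟨conjP_monotone m n a, conjP_le m n a⟩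
    · rintro a' ⟨a, haC, rfl⟩ b' ⟨b, hbC, rfl⟩ _
      rcases eq_or_ne a b with hab | hab
      · subst hab
        exact Or.inl le_rfl
      · rcases hchain haC hbC hab with h1 | h1
        · exact Or.inl (conjP_mono m n h1)
        · exact Or.inr (conjP_mono m n h1)
    · rintro a' ⟨a, haC, rfl⟩ b' ⟨b, hbC, rfl⟩ hab
      simp only at hab
      rw [conjP_sum m n a (hsub haC).2, conjP_sum m n b (hsub hbC).2] at hab
      rw [hinj haC hbC hab]
    · rw [Nat.mul_comm n m, ← hj, Set.image_image]
      apply Set.image_congr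
      intro a haC
      exact conjP_sum m n a (hsub haC).2
  · intro a' hm' ha'
    have hb1 : Monotone (conjP n m a') := conjP_monotone n m a'
    have hb2 : ∀ i, conjP n m a' i ≤ n := conjP_le n m a'
    have hb3 : conjP m n (conjP n m a') = a' := conjP_conjP n m a' hm' ha'
    obtain ⟨C, ⟨hC, haC⟩, huniq⟩ := hex (conjP n m a') hb1 hb2
    refine ⟨conjP m n '' C, ⟨⟨C, hC, rfl⟩, ⟨_, haC, hb3⟩⟩, ?_⟩
    rintro C' ⟨⟨C2, hC2, rfl⟩, ⟨b, hbC2, hb⟩⟩
    have hsub2 := (hP C2 hC2).1 hbC2
    have hb4 : b = conjP n m a' := by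
      rw [← hb]
      exact (conjP_conjP m n b hsub2.1 hsub2.2).symm
    have : C2 = C := huniq C2 ⟨hC2, hb4 ▸ hbC2⟩
    rw [this]

end Pool.LS
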